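import Pool.Agent.Helper58_MOO.Stmts

/-!
# RSO: sorting the upper part of a condition (MOO project)
-/

open Cardinal
open Pool.Agent.Helper69_LOTS

namespace Pool.Agent.MOO.H23

open Node

/-- keys for sorting -/
abbrev Ky := ℕ ×ₗ (ℕ ×ₗ Om)

theorem rso : RsoStmt := by
  classical
  intro x y ln c r N hN
  -- the pairs above `N`
  set F : Finset (Om × Om) := r.f.filter (fun p => dlt N ≤ p.1) with hF
  have memF : ∀ p, p ∈ F ↔ p ∈ r.f ∧ dlt N ≤ p.1 := fun p => by rw [hF, Finset.mem_filter]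
  let lv : Om → ℕ := fun α => ((r.H ∪ r.S).filter (fun M => dlt M ≤ α)).card
  have lv_mono : ∀ {α β : Om}, α ≤ β → lv α ≤ lv β := by
    intro α β h
    apply Finset.card_le_card
    intro M hM
    rw [Finset.mem_filter] at hM ⊢
    exact ⟨hM.1, hM.2.trans h⟩
  have lv_lt : ∀ {α β : Om} {M : Set (Set Om)}, (M ∈ r.H ∨ M ∈ r.S) → α < dlt M → dlt M ≤ β →
      lv α < lv β := by
    intro α β M hM h1 h2
    apply Finset.card_lt_card
    rw [Finset.ssubset_iff_of_subset]
    · refine ⟨M, ?_, ?_⟩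
      · rw [Finset.mem_filter, Finset.mem_union]
        exact ⟨hM, h2⟩
      · rw [Finset.mem_filter]
        exact fun h => absurd h.2 (not_le.2 h1)
    · intro M' hM'
      rw [Finset.mem_filter] at hM' ⊢
      exact ⟨hM'.1, hM'.2.trans (h1.le.trans h2)⟩
  let kx : Om × Om → Ky := fun p => toLex (lv p.1, toLex (1, p.1))
  let ky : Om × Om → Ky := fun p => toLex (lv p.2, toLex (0, p.2))
  let S : Finset Ky := F.image kx ∪ F.image ky
  have hx : ∀ p ∈ F, kx p ∈ S := fun p hp => Finset.mem_union_left _ (Finset.mem_image_of_mem _ hp)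
  have hy : ∀ p ∈ F, ky p ∈ S := fun p hp => Finset.mem_union_right _ (Finset.mem_image_of_mem _ hp)
  let o : Fin S.card ≃o S := S.orderIsoOfFin rfl
  let e : Fin F.card ≃ F := F.equivFin.symm
  let z : ℕ → Om := fun k => if h : k < S.card then (ofLex (ofLex (o ⟨k, h⟩ : Ky)).2).2 else dlt N
  let px : Fin F.card → ℕ := fun i => (o.symm ⟨kx (e i), hx _ (e i).2⟩ : ℕ)
  let py : Fin F.card → ℕ := fun i => (o.symm ⟨ky (e i), hy _ (e i).2⟩ : ℕ)
  have zx : ∀ i, z (px i) = (e i : Om × Om).1 := by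
    intro i
    have h : px i < S.card := (o.symm ⟨kx (e i), hx _ (e i).2⟩).2
    have h2 : o ⟨px i, h⟩ = ⟨kx (e i), hx _ (e i).2⟩ := o.apply_symm_apply _
    show (if h : px i < S.card then (ofLex (ofLex (o ⟨px i, h⟩ : Ky)).2).2 else dlt N) = _
    rw [dif_pos h, h2]
    rfl
  have zy : ∀ i, z (py i) = (e i : Om × Om).2 := by
    intro i
    have h : py i < S.card := (o.symm ⟨ky (e i), hy _ (e i).2⟩).2
    have h2 : o ⟨py i, h⟩ = ⟨ky (e i), hy _ (e i).2⟩ := o.apply_symm_apply _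
    show (if h : py i < S.card then (ofLex (ofLex (o ⟨py i, h⟩ : Ky)).2).2 else dlt N) = _
    rw [dif_pos h, h2]
    rfl
  -- every position is an x or a y
  have cov : ∀ k, k < S.card → (∃ i, px i = k) ∨ (∃ i, py i = k) := by
    intro k hk
    have h1 := (o ⟨k, hk⟩).2
    rcases Finset.mem_union.1 h1 with h | h
    · obtain ⟨p, hp, hp2⟩ := Finset.mem_image.1 h
      left
      refine ⟨e.symm ⟨p, hp⟩, ?_⟩
      have h3 : (e (e.symm ⟨p, hp⟩) : Om × Om) = p := by rw [e.apply_symm_apply]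
      have h4 : (⟨kx (e (e.symm ⟨p, hp⟩)), hx _ (e (e.symm ⟨p, hp⟩)).2⟩ : S) = o ⟨k, hk⟩ := by
        apply Subtype.ext
        show kx (e (e.symm ⟨p, hp⟩)) = _
        rw [h3, hp2]
      show ((o.symm ⟨kx (e (e.symm ⟨p, hp⟩)), _⟩ : Fin S.card) : ℕ) = k
      rw [h4, o.symm_apply_apply]
    · obtain ⟨p, hp, hp2⟩ := Finset.mem_image.1 h
      right
      refine ⟨e.symm ⟨p, hp⟩, ?_⟩
      have h3 : (e (e.symm ⟨p, hp⟩) : Om × Om) = p := by rw [e.apply_symm_apply]
      have h4 : (⟨ky (e (e.symm ⟨p, hp⟩)), hy _ (e (e.symm ⟨p, hp⟩)).2⟩ : S) = o ⟨k, hk⟩ := by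
        apply Subtype.ext
        show ky (e (e.symm ⟨p, hp⟩)) = _
        rw [h3, hp2]
      show ((o.symm ⟨ky (e (e.symm ⟨p, hp⟩)), _⟩ : Fin S.card) : ℕ) = k
      rw [h4, o.symm_apply_apply]
  have r1 : ∀ p ∈ F, dlt N ≤ p.2 := by
    intro p hp
    obtain ⟨h1, h2⟩ := (memF p).1 hp
    exact not_lt.1 fun h => absurd ((r.r1 p h1 N hN).2 h) (not_lt.2 h2)
  have sep : ∀ p ∈ F, ∀ q ∈ F, p ≠ q → lv p.2 ≠ lv q.2 := by
    intro p hp q hq hne
    obtain ⟨M, hM, h | h⟩ := r.r3 p ((memF p).1 hp).1 q ((memF q).1 hq).1 hne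
    · exact (lv_lt hM h.1 h.2).ne
    · exact (lv_lt hM h.1 h.2).ne'
  have hxinj : ∀ p ∈ F, ∀ q ∈ F, p.1 = q.1 → p = q := fun p hp q hq h =>
    r.fn p ((memF p).1 hp).1 q ((memF q).1 hq).1 h
  have hyinj : ∀ p ∈ F, ∀ q ∈ F, p.2 = q.2 → p = q := by
    intro p hp q hq h
    by_contra hne
    exact sep p hp q hq hne (by rw [h])
  -- the models
  have hNc : ∀ i : Fin F.card, ∃ M, (M ∈ r.H ∨ M ∈ r.S) ∧ dlt M ≤ (e i : Om × Om).2 ∧
      ∀ M', (M' ∈ r.H ∨ M' ∈ r.S) → dlt M' ≤ (e i : Om × Om).2 → dlt M' ≤ dlt M := by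
    intro i
    have hne : ((r.H ∪ r.S).filter (fun M => dlt M ≤ (e i : Om × Om).2)).Nonempty := by
      refine ⟨N, ?_⟩
      rw [Finset.mem_filter, Finset.mem_union]
      exact ⟨Or.inl hN, r1 _ (e i).2⟩
    obtain ⟨M, hM, hmax⟩ := Finset.exists_max_image _ dlt hne
    rw [Finset.mem_filter, Finset.mem_union] at hM
    refine ⟨M, hM.1, hM.2, fun M' h1 h2 => hmax M' ?_⟩
    rw [Finset.mem_filter, Finset.mem_union]
    exact ⟨h1, h2⟩
  choose Nc hNc1 hNc2 hNc3 using hNc
  refine ⟨F.card, S.card, px, py, z, Nc, ⟨?_, ?_, ?_, ?_, ?_, cov⟩, ?_, ?_, ?_, ?_⟩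
  · intro i
    have h1 : kx (e i) < ky (e i) := by
      obtain ⟨M, hM, h2, h3⟩ := r.r2 _ ((memF _).1 (e i).2).1
      exact Prod.Lex.toLex_lt_toLex.2 (Or.inl (lv_lt hM h2 h3))
    have h2 : (⟨kx (e i), hx _ (e i).2⟩ : S) < ⟨ky (e i), hy _ (e i).2⟩ := h1
    exact o.symm.lt_iff_lt.2 h2
  · intro i
    exact (o.symm ⟨ky (e i), hy _ (e i).2⟩).2
  · intro i j hij
    have h1 := o.symm.injective (Fin.ext hij)
    have h2 : kx (e i) = kx (e j) := congrArg Subtype.val h1
    have h3 : (e i : Om × Om).1 = (e j : Om × Om).1 := by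
      have := congrArg (fun k : Ky => (ofLex (ofLex k).2).2) h2
      exact this
    exact e.injective (Subtype.ext (hxinj _ (e i).2 _ (e j).2 h3))
  · intro i j hij
    have h1 := o.symm.injective (Fin.ext hij)
    have h2 : ky (e i) = ky (e j) := congrArg Subtype.val h1
    have h3 : (e i : Om × Om).2 = (e j : Om × Om).2 := by
      have := congrArg (fun k : Ky => (ofLex (ofLex k).2).2) h2
      exact this
    exact e.injective (Subtype.ext (hyinj _ (e i).2 _ (e j).2 h3))
  · intro i j hij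
    have h1 := o.symm.injective (Fin.ext hij)
    have h2 : kx (e i) = ky (e j) := congrArg Subtype.val h1
    have h3 : (1 : ℕ) = 0 := by
      have := congrArg (fun k : Ky => (ofLex (ofLex k).2).1) h2
      exact this
    exact one_ne_zero h3
  · intro k hk
    rcases cov k hk with ⟨i, rfl⟩ | ⟨i, rfl⟩
    · rw [zx]
      exact ((memF _).1 (e i).2).2
    · rw [zy]
      exact r1 _ (e i).2
  · intro p
    constructor
    · intro hp
      have hpF := (memF p).2 hp
      refine ⟨e.symm ⟨p, hpF⟩, ?_⟩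
      have h3 : (e (e.symm ⟨p, hpF⟩) : Om × Om) = p := by rw [e.apply_symm_apply]
      rw [zx, zy, h3]
    · rintro ⟨i, rfl⟩
      rw [zx, zy]
      exact (memF _).1 (e i).2
  · intro i
    refine ⟨hNc1 i, ?_, ?_, ?_⟩
    · by_cases h : Nc i = N
      · exact Or.inl h
      · right
        rcases r.ch N (Nc i) (Or.inl hN) (hNc1 i) (Ne.symm h) with h1 | h1
        · exact h1
        · exact absurd h1.2.2 (not_lt.2 (hNc3 i N (Or.inl hN) (r1 _ (e i).2)))
    · intro k hk
      have hkS : k < S.card := hk.trans (o.symm ⟨ky (e i), hy _ (e i).2⟩).2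
      have key : lv (z k) < lv (e i : Om × Om).2 → z k < dlt (Nc i) := by
        intro h1
        by_contra h2
        push Not at h2
        refine absurd h1 (not_lt.2 ?_)
        apply Finset.card_le_card
        intro M hM
        rw [Finset.mem_filter, Finset.mem_union] at hM ⊢
        exact ⟨hM.1, (hNc3 i M hM.1 hM.2).trans h2⟩
      apply key
      rcases cov k hkS with ⟨j, rfl⟩ | ⟨j, rfl⟩
      · have h1 : (⟨kx (e j), hx _ (e j).2⟩ : S) < ⟨ky (e i), hy _ (e i).2⟩ :=
          o.symm.lt_iff_lt.1 hk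
        have h2 : kx (e j) < ky (e i) := h1
        rw [zx]
        rcases Prod.Lex.toLex_lt_toLex.1 h2 with h3 | h3
        · exact h3
        · rcases Prod.Lex.toLex_lt_toLex.1 h3.2 with h4 | h4
          · exact absurd h4 (by simp)
          · exact absurd h4.1 (by simp)
      · have h1 : (⟨ky (e j), hy _ (e j).2⟩ : S) < ⟨ky (e i), hy _ (e i).2⟩ :=
          o.symm.lt_iff_lt.1 hk
        have h2 : ky (e j) < ky (e i) := h1
        rw [zy]
        rcases Prod.Lex.toLex_lt_toLex.1 h2 with h3 | h3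
        · exact h3
        · rcases Prod.Lex.toLex_lt_toLex.1 h3.2 with h4 | h4
          · exact absurd h4 (by simp)
          · have hne : (e j : Om × Om) ≠ e i := by
              intro h5
              have h6 : (e j : Om × Om).2 < (e i : Om × Om).2 := h4.2
              rw [h5] at h6
              exact lt_irrefl _ h6
            exact absurd h3.1 (sep _ (e j).2 _ (e i).2 hne)
    · rw [zy]
      exact hNc2 i
  · intro i j hij
    rw [zx, zx, zy, zy]
    constructor
    · intro h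
      exact hij (e.injective (Subtype.ext (hxinj _ (e i).2 _ (e j).2 h)))
    · intro h
      exact hij (e.injective (Subtype.ext (hyinj _ (e i).2 _ (e j).2 h)))

end Pool.Agent.MOO.H23
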