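import Pool.Agent.Helper58_MOO.Stmts
import Pool.Agent.Helper69_LOTS.Countryman

/-!
# TRE: a coherent tree (MOO project)
-/

open Cardinal
open Pool.Agent.Helper69_LOTS

namespace Pool.Agent.MOO.H23

open Node

/-- an injection of pairs, not decreasing the first coordinate -/
theorem exists_code : ∃ f : Om → ℕ → Om, (∀ ξ n, ξ ≤ f ξ n) ∧
    ∀ ξ η m n, f ξ m = f η n → ξ = η ∧ m = n := by
  obtain ⟨s, hs⟩ := exists_rec (β := ℕ → Om)
    (fun D x => StrictMono x ∧ ∀ y ∈ D, ∀ m n, y m < x n) (by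
      intro D hD
      have hA : (⋃ y ∈ D, Set.range (y : ℕ → Om)).Countable :=
        hD.biUnion fun y _ => Set.countable_range y
      obtain ⟨β, hβ⟩ := Om_bdd hA
      choose g hg using Om_exists_gt
      have hx : StrictMono (fun n => g^[n] β) := by
        refine strictMono_nat_of_lt_succ fun n => ?_
        rw [Function.iterate_succ_apply']
        exact hg _
      refine ⟨fun n => g^[n] β, hx, fun y hy m n => ?_⟩
      have h1 : y m < β := hβ _ (Set.mem_biUnion hy ⟨m, rfl⟩)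
      exact h1.trans_le (hx.monotone (Nat.zero_le n)))
  have hlt : ∀ ξ η, ξ < η → ∀ m n, s ξ m < s η n := fun ξ η h m n =>
    (hs η).2 (s ξ) ⟨ξ, h, rfl⟩ m n
  have hmono : StrictMono (fun ξ => s ξ 0) := fun ξ η h => hlt ξ η h 0 0
  refine ⟨s, fun ξ n => ?_, fun ξ η m n h => ?_⟩
  · exact (hmono.le_apply (x := ξ)).trans ((hs ξ).1.monotone (Nat.zero_le n))
  · rcases lt_trichotomy ξ η with h1 | h1 | h1
    · exact absurd h (hlt ξ η h1 m n).ne
    · subst h1
      exact ⟨rfl, (hs ξ).1.injective h⟩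
    · exact absurd h (hlt η ξ h1 n m).ne'

theorem tre : TreStmt := by
  classical
  obtain ⟨e, he1, he2⟩ := exists_coherent
  obtain ⟨f, hf1, hf2⟩ := exists_code
  let a : Om → Om → Bool := fun δ ζ => decide (∃ ξ n, ζ = f ξ n ∧ n < e δ ξ)
  have ha : ∀ δ ξ n, a δ (f ξ n) = true ↔ n < e δ ξ := by
    intro δ ξ n
    rw [decide_eq_true_iff]
    constructor
    · rintro ⟨ξ', n', h1, h2⟩
      obtain ⟨rfl, rfl⟩ := hf2 _ _ _ _ h1
      exact h2
    · exact fun h => ⟨ξ, n, rfl, h⟩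
  -- coherence
  have hcoh : ∀ γ δ, γ ≤ δ → {ζ | ζ < γ ∧ a γ ζ ≠ a δ ζ}.Finite := by
    intro γ δ hγδ
    rcases hγδ.eq_or_lt with rfl | hlt
    · convert Set.finite_empty
      ext ζ
      simp
    · refine ((he2 γ δ hlt).biUnion (t := fun ξ => (fun n => f ξ n) ''
        {n | n < max (e γ ξ) (e δ ξ)}) (fun ξ _ => (Set.finite_lt_nat _).image _)).subset ?_
      rintro ζ ⟨h1, h2⟩
      have h3 : ∃ ξ n, ζ = f ξ n := by
        by_contra hcon
        push Not at hcon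
        apply h2
        have h4 : ∀ ε, a ε ζ = false := by
          intro ε
          rw [decide_eq_false_iff_not]
          rintro ⟨ξ, n, h5, -⟩
          exact hcon ξ n h5
        rw [h4, h4]
      obtain ⟨ξ, n, rfl⟩ := h3
      have h4 : ¬ (n < e γ ξ ↔ n < e δ ξ) := by
        intro h5
        apply h2
        rw [Bool.eq_iff_iff, ha, ha]
        exact h5
      refine Set.mem_biUnion (x := ξ) ⟨(hf1 ξ n).trans_lt h1, fun h5 => h4 (by rw [h5])⟩
        ⟨n, ?_, rfl⟩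
      rw [Set.mem_ofPred_eq, lt_max_iff]
      by_contra h6
      push Not at h6
      exact h4 ⟨fun h => absurd h (not_lt.2 h6.1), fun h => absurd h (not_lt.2 h6.2)⟩
  let T : Set Node := {s | {ξ | ξ < s.ht ∧ s.val ξ ≠ a s.ht ξ}.Finite}
  -- difference to another level
  have hdiff : ∀ s ∈ T, ∀ γ δ, γ ≤ s.ht → γ ≤ δ → {ξ | ξ < γ ∧ s.val ξ ≠ a δ ξ}.Finite := by
    intro s hs γ δ h1 h2
    have h3 : {ξ | ξ < s.ht ∧ s.val ξ ≠ a s.ht ξ}.Finite := hs
    refine ((h3.union (hcoh γ s.ht h1)).union (hcoh γ δ h2)).subset ?_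
    rintro ξ ⟨h4, h5⟩
    by_cases h6 : s.val ξ = a s.ht ξ
    · by_cases h7 : a γ ξ = a s.ht ξ
      · refine Or.inr ⟨h4, fun h8 => h5 ?_⟩
        rw [h6, ← h7, h8]
      · exact Or.inl (Or.inr ⟨h4, h7⟩)
    · exact Or.inl (Or.inl ⟨h4.trans_le h1, h6⟩)
  have hAT : AT T := by
    refine ⟨?_, ?_, ?_, ?_, ?_⟩
    · intro s hs ξ
      rcases le_total s.ht ξ with h | h
      · rw [res_of_le h]
        exact hs
      · show {η | η < (s.res ξ).ht ∧ (s.res ξ).val η ≠ a (s.res ξ).ht η}.Finite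
        rw [res_ht_of_le h]
        refine (hdiff s hs ξ ξ h le_rfl).subset ?_
        rintro η ⟨h1, h2⟩
        refine ⟨h1, ?_⟩
        rwa [res_val_of_lt h1] at h2
    · intro δ
      refine Set.MapsTo.countable_of_injOn (f := fun s : Node => {ξ | ξ < δ ∧ s.val ξ ≠ a δ ξ})
        (t := {t : Set Om | t.Finite ∧ t ⊆ Set.Iio δ}) ?_ ?_
        (Set.countable_ofPred_finite_subset (Om_Iio_countable δ))
      · rintro s ⟨hs, rfl⟩
        exact ⟨hs, fun ξ hξ => hξ.1⟩
      · rintro s ⟨hs, hsδ⟩ t ⟨ht, htδ⟩ hst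
        refine Node.ext (hsδ.trans htδ.symm) (funext fun ξ => ?_)
        by_cases hξ : ξ < δ
        · have h1 : ξ ∈ {ξ | ξ < δ ∧ s.val ξ ≠ a δ ξ} ↔ ξ ∈ {ξ | ξ < δ ∧ t.val ξ ≠ a δ ξ} := by
            have : {ξ | ξ < δ ∧ s.val ξ ≠ a δ ξ} = {ξ | ξ < δ ∧ t.val ξ ≠ a δ ξ} := hst
            rw [this]
          have h2 : s.val ξ ≠ a δ ξ ↔ t.val ξ ≠ a δ ξ :=
            ⟨fun h => (h1.1 ⟨hξ, h⟩).2, fun h => (h1.2 ⟨hξ, h⟩).2⟩
          cases h3 : s.val ξ <;> cases h4 : t.val ξ <;> cases h5 : a δ ξ <;>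
            simp [h3, h4, h5] at h2 ⊢
        · rw [s.supp ξ (by rw [hsδ]; exact not_lt.1 hξ), t.supp ξ (by rw [htδ]; exact not_lt.1 hξ)]
    · intro s hs δ hδ
      refine ⟨⟨δ, fun ξ => if ξ < s.ht then s.val ξ else if ξ < δ then a δ ξ else false, ?_⟩,
        ?_, ⟨hδ, fun η hη => by simp [hη]⟩, rfl⟩
      · intro ξ hξ
        rw [if_neg (not_lt.2 (hδ.trans hξ)), if_neg (not_lt.2 hξ)]
      · refine (hdiff s hs s.ht δ le_rfl hδ).subset ?_
        rintro ξ ⟨h1, h2⟩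
        have h1' : ξ < δ := h1
        by_cases h3 : ξ < s.ht
        · refine ⟨h3, ?_⟩
          simpa [h3] using h2
        · simp [h3, h1'] at h2
    · obtain ⟨δ⟩ := (inferInstance : Nonempty Om)
      refine ⟨ofBr (a δ) δ, ?_⟩
      show {ξ | ξ < δ ∧ (ofBr (a δ) δ).val ξ ≠ a δ ξ}.Finite
      convert Set.finite_empty
      ext ξ
      simp only [Set.mem_ofPred_eq, Set.mem_empty_iff_false, iff_false, not_and, not_not]
      intro h
      show (if ξ < δ then a δ ξ else false) = a δ ξ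
      rw [if_pos h]
    · rintro ⟨b, hb⟩
      have hb' : ∀ δ, {ξ | ξ < δ ∧ b ξ ≠ a δ ξ}.Finite := by
        intro δ
        have h1 : {ξ | ξ < δ ∧ (ofBr b δ).val ξ ≠ a δ ξ}.Finite := hb δ
        refine h1.subset ?_
        rintro ξ ⟨h2, h3⟩
        refine ⟨h2, ?_⟩
        show (if ξ < δ then b ξ else false) ≠ a δ ξ
        rwa [if_pos h2]
      let E : Om → ℕ := fun ξ => sInf {n | b (f ξ n) = false}
      -- closed levels
      have hclb : Clb {δ | ∀ ξ, ξ < δ → ∀ n, f ξ n < δ} := by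
        refine Clb.diag (C := fun ξ => {δ | ∀ n, f ξ n < δ}) fun ξ => ⟨fun α => ?_, fun δ _ h => ?_⟩
        · obtain ⟨β, hβ⟩ := Om_bdd ((Set.countable_range (f ξ)).insert α)
          exact ⟨β, fun n => hβ _ (Or.inr ⟨n, rfl⟩), hβ α (Or.inl rfl)⟩
        · intro n
          by_contra hcon
          push Not at hcon
          obtain ⟨ε, hε⟩ := ‹∃ ξ, ξ < δ›
          obtain ⟨η, h1, -, h3⟩ := h ε hε
          exact absurd (h1 n) (not_lt.2 (h3.le.trans hcon))
      have hE : ∀ δ, (∀ ξ, ξ < δ → ∀ n, f ξ n < δ) → {ξ | ξ < δ ∧ E ξ ≠ e δ ξ}.Finite := by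
        intro δ hδ
        have h1 : {p : Om × ℕ | f p.1 p.2 < δ ∧ b (f p.1 p.2) ≠ a δ (f p.1 p.2)}.Finite := by
          refine (hb' δ).preimage (f := fun p : Om × ℕ => f p.1 p.2) ?_
          rintro ⟨ξ, m⟩ _ ⟨η, n⟩ _ h
          obtain ⟨rfl, rfl⟩ := hf2 _ _ _ _ h
          rfl
        refine (h1.image Prod.fst).subset ?_
        rintro ξ ⟨h2, h3⟩
        by_contra hcon
        apply h3
        have h4 : ∀ n, b (f ξ n) = a δ (f ξ n) := by
          intro n
          by_contra h5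
          exact hcon ⟨(ξ, n), ⟨hδ ξ h2 n, h5⟩, rfl⟩
        have h5 : {n | b (f ξ n) = false} = {n | e δ ξ ≤ n} := by
          ext n
          rw [Set.mem_ofPred_eq, Set.mem_ofPred_eq, h4, ← not_lt, ← ha, Bool.not_eq_true]
        show sInf {n | b (f ξ n) = false} = e δ ξ
        rw [h5]
        have h6 : e δ ξ ∈ {n | e δ ξ ≤ n} := le_refl (e δ ξ)
        exact le_antisymm (Nat.sInf_le h6) (le_csInf ⟨_, h6⟩ fun n hn => hn)
      obtain ⟨n0, hn0⟩ := Pool.Agent.Helper69_LOTS.exists_uncountable_fiber E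
      have hinf : {i | E i = n0}.Infinite := by
        intro h
        exact not_countable (α := {i // E i = n0}) h.countable.to_subtype
      obtain ⟨I, hI1, hI2, hI3⟩ : ∃ I : Set Om, I ⊆ {i | E i = n0} ∧ I.Infinite ∧ I.Countable := by
        have := hinf.to_subtype
        refine ⟨Set.range fun n : ℕ => ((Infinite.natEmbedding {i // E i = n0} n : {i // E i = n0}) : Om), ?_,
          ?_, Set.countable_range _⟩
        · rintro _ ⟨n, rfl⟩
          exact (Infinite.natEmbedding {i // E i = n0} n).2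
        · refine Set.infinite_range_of_injective fun m n h => ?_
          exact (Infinite.natEmbedding {i // E i = n0}).injective (Subtype.ext h)
      obtain ⟨β, hβ⟩ := Om_bdd hI3
      obtain ⟨δ, hδ1, hδ2⟩ := hclb.1 β
      apply hI2
      refine ((he1 δ n0).union (hE δ hδ1)).subset ?_
      intro ξ hξ
      have h1 : ξ < δ := (hβ ξ hξ).trans hδ2
      by_cases h2 : E ξ = e δ ξ
      · refine Or.inl ⟨h1, ?_⟩
        rw [← h2]
        exact le_of_eq (hI1 hξ)
      · exact Or.inr ⟨h1, h2⟩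
  refine ⟨T, hAT, ?_, ?_⟩
  · intro s hs t ht hst
    have h1 : {ξ | ξ < s.ht ∧ s.val ξ ≠ a s.ht ξ}.Finite := hs
    have h2 : {ξ | ξ < t.ht ∧ t.val ξ ≠ a t.ht ξ}.Finite := ht
    refine (h1.union h2).subset ?_
    intro ξ h3
    have h4 : ξ < s.ht := by
      by_contra h5
      apply h3
      rw [s.supp ξ (not_lt.1 h5), t.supp ξ (by rw [← hst]; exact not_lt.1 h5)]
    by_cases h5 : s.val ξ = a s.ht ξ
    · refine Or.inr ⟨hst ▸ h4, fun h6 => h3 ?_⟩
      rw [h5, h6, hst]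
    · exact Or.inl ⟨h4, h5⟩
  · intro s hs g
    have h1 : {ξ | ξ < s.ht ∧ s.val ξ ≠ a s.ht ξ}.Finite := hs
    refine (h1.union g.finite_toSet).subset ?_
    rintro ξ ⟨h2, h3⟩
    have h2' : ξ < s.ht := h2
    by_cases h4 : ξ ∈ g
    · exact Or.inr h4
    · refine Or.inl ⟨h2', ?_⟩
      rw [flip_val h2'] at h3
      simpa [h4] using h3

end Pool.Agent.MOO.H23
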